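import Pool.Agent.Helper39.BS.Res
import Pool.Agent.Helper39.BS.Core
import Pool.Agent.Helper39.FC.Core2

/-!
# The birational section conjecture over a number field and twisted Fermat curves

Let `k` be a number field. The birational section conjecture over `k`, for all curves over `k`, holds if
and only if the twisted Fermat curves `a X ^ N + b Y ^ N = Z ^ N`, `N ≥ 1`, `a, b ∈ k`, `a b ≠ 0`, the
birational Galois group of which has a section, have a rational point. It suffices to consider multiples
`N` of a given number, and points over a fixed finite extension of `k`. This is the case of the two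
points `0`, `1` of a theorem for finite sets of at least two points `c i` of `k`, with the curves
`a i * X i ^ N + c i * W ^ N = a j * X j ^ N + c j * W ^ N` (for all `i`, `j`).
-/

set_option autoImplicit false

open Polynomial IsDedekindDomain NumberField

namespace Pool.Agent.Results.MP_8312c9_nt.FermatCurves

/-- Let `F` be an extension of `k`, `Ω` an algebraic closure of `F`, and `kbar` the algebraic closure
of `k` in `Ω`. A section of the restriction map `Gal(Ω/F) → Gal(kbar/k)`: a continuous homomorphism
`hom` such that `hom g` is `g` on `kbar`. -/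
structure GaloisSection (k F Ω : Type) [Field k] [Field F] [Field Ω] [Algebra k Ω] [Algebra F Ω] where
  /-- the homomorphism -/
  hom : (algebraicClosure k Ω ≃ₐ[k] algebraicClosure k Ω) →* (Ω ≃ₐ[F] Ω)
  cont : Continuous hom
  sec : ∀ (g : algebraicClosure k Ω ≃ₐ[k] algebraicClosure k Ω) (x : algebraicClosure k Ω),
    hom g (x : Ω) = ((g x : algebraicClosure k Ω) : Ω)

/-- The section arises from the rational point with the valuation ring `O`: `O` is a nontrivial
valuation ring of `F` over `k` with residue field `k`, and the automorphisms `hom g` map some valuation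
ring `W` of `Ω` above `O` to itself. -/
def GaloisSection.ArisesFrom {k F Ω : Type} [Field k] [Field F] [Field Ω] [Algebra k Ω]
    [Algebra F Ω] [Algebra k F] (s : GaloisSection k F Ω) (O : ValuationSubring F) : Prop :=
  O ≠ ⊤ ∧ (∀ c : k, algebraMap k F c ∈ O) ∧
    (∀ a ∈ O, ∃ c : k, O.valuation (a - algebraMap k F c) < 1) ∧
    ∃ W : ValuationSubring Ω, W.comap (algebraMap F Ω) = O ∧
      ∀ (g : algebraicClosure k Ω ≃ₐ[k] algebraicClosure k Ω) (x : Ω), (s.hom g x ∈ W ↔ x ∈ W)

/-- The birational section conjecture over `k`: for every function field `F` of a curve over `k`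
(finitely generated, algebraic over `k (t)` for a transcendental `t`), every section arises from
exactly one rational point. -/
def BirationalSectionConjecture (k : Type) [Field k] : Prop :=
  ∀ (F Ω : Type) [Field F] [Field Ω] [Algebra k F] [Algebra F Ω] [Algebra k Ω]
    [IsScalarTower k F Ω] [IsAlgClosure F Ω], (⊤ : IntermediateField k F).FG →
    (∃ t : F, Transcendental k t ∧ Algebra.IsAlgebraic (IntermediateField.adjoin k {t}) F) →
    ∀ s : GaloisSection k F Ω, ∃! O : ValuationSubring F, s.ArisesFrom O

/-- There is a section for the function field of the curve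
`a i * X i ^ N + c i * W ^ N = a j * X j ^ N + c j * W ^ N` (for all `i`, `j`): the field is generated
over `k` by `x`, `X i` with `x - c i = a i * X i ^ N`, where `x` is transcendental. -/
def HasSection {k : Type} [Field k] {n : ℕ} (c : Fin n → k) (N : ℕ) (a : Fin n → k) : Prop :=
  ∃ (F Ω : Type) (_ : Field F) (_ : Field Ω) (_ : Algebra k F) (_ : Algebra F Ω)
    (_ : Algebra k Ω) (_ : IsScalarTower k F Ω) (_ : IsAlgClosure F Ω) (x : F) (X : Fin n → F),
    Transcendental k x ∧
    IntermediateField.adjoin k (insert x (Set.range X)) = (⊤ : IntermediateField k F) ∧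
    (∀ i, x - algebraMap k F (c i) = algebraMap k F (a i) * X i ^ N) ∧
    Nonempty (GaloisSection k F Ω)

/-- The curve has a point over the extension `L` of `k`: a nontrivial solution of
`a i * X i ^ N + c i * W ^ N = a j * X j ^ N + c j * W ^ N` (for all `i`, `j`). -/
def HasPoint {k : Type} [Field k] {n : ℕ} (c : Fin n → k) (N : ℕ) (a : Fin n → k) (L : Type)
    [Field L] [Algebra k L] : Prop :=
  ∃ (X : Fin n → L) (W : L), (W ≠ 0 ∨ ∃ i, X i ≠ 0) ∧
    ∀ i j, algebraMap k L (a i) * X i ^ N + algebraMap k L (c i) * W ^ N =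
      algebraMap k L (a j) * X j ^ N + algebraMap k L (c j) * W ^ N

section

open Pool.Agent.TH954 Pool.Agent.Helper39.BS

variable {k F Ω : Type} [Field k] [Field F] [Field Ω] [Algebra k Ω] [Algebra F Ω] [Algebra k F]

/-- the section in the sense of the library -/
def toGal (s : GaloisSection k F Ω) : GalSection k F Ω (algebraicClosure k Ω) where
  j := (algebraicClosure k Ω).val
  s := s.hom
  cont := s.cont
  sec := s.sec

lemma arises_iff (s : GaloisSection k F Ω) (O : ValuationSubring F) :
    s.ArisesFrom O ↔ (toGal s).ArisesFrom O := Iff.rfl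

/-- the section over a subfield of the fixed field -/
noncomputable def restrict [IsScalarTower k F Ω] [IsAlgClosure F Ω] [IsAlgClosed Ω]
    (s : GaloisSection k F Ω)
    (E : IntermediateField k Ω) (hE : E ≤ fixS (toGal s)) : GaloisSection k E Ω where
  hom := (restr (toGal s) E hE).s
  cont := (restr (toGal s) E hE).cont
  sec := (restr (toGal s) E hE).sec

lemma adjoin_top {ι : Type} (E : IntermediateField k Ω) (z : E) (y : ι → E)
    (hE : E = IntermediateField.adjoin k (insert (z : Ω) (Set.range fun i => (y i : Ω)))) :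
    IntermediateField.adjoin k (insert z (Set.range y)) = (⊤ : IntermediateField k E) := by
  apply IntermediateField.lift_injective E
  rw [IntermediateField.lift_top, IntermediateField.lift_adjoin, Set.image_insert_eq,
    ← Set.range_comp]
  exact hE.symm

lemma hasPoint_iff {n : ℕ} (c : Fin n → k) (N : ℕ) (a : Fin n → k) (L : Type)
    [Field L] [Algebra k L] :
    HasPoint c N a L ↔ Pool.Agent.Helper39.FC.Solution c N a L := Iff.rfl

lemma isAlgClosure_of [IsAlgClosed Ω] {z : Ω} (h : Algebra.IsAlgebraic (Algebra.adjoin k {z}) Ω)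
    (E : IntermediateField k Ω) (hz : z ∈ E) : IsAlgClosure E Ω := by
  refine ⟨‹_›, ⟨fun w => ?_⟩⟩
  obtain ⟨p, hp0, hp⟩ := h.isAlgebraic w
  have hle : Algebra.adjoin k {z} ≤ E.toSubalgebra := by
    rw [Algebra.adjoin_le_iff]
    rintro _ rfl
    exact hz
  let i : Algebra.adjoin k {z} →+* E := (Subalgebra.inclusion hle).toRingHom
  have hi : Function.Injective i := Subalgebra.inclusion_injective hle
  refine ⟨p.map i, (Polynomial.map_ne_zero_iff hi).2 hp0, ?_⟩
  rw [Polynomial.aeval_def, Polynomial.eval₂_map]
  exact hp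

end

section forward

open Pool.Agent.TH954 Pool.Agent.Helper39.BS Pool.Agent.TH213.SEL

variable {k : Type} [Field k] [NumberField k]

/-- if the class of one function is that of a constant, the section arises from a point -/
theorem of_class (F Ω : Type) [Field F] [Field Ω] [Algebra k F] [Algebra F Ω] [Algebra k Ω]
    [IsScalarTower k F Ω] [IsAlgClosure F Ω]
    (hF : ∃ t : F, Transcendental k t ∧ Algebra.IsAlgebraic (IntermediateField.adjoin k {t}) F)
    (s : GaloisSection k F Ω) (g : F) (hgT : Transcendental k g) (η : k) (hη : η ≠ 0)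
    (h : ∀ N : ℕ, 0 < N → ∃ w ∈ fixS (toGal s),
      algebraMap F Ω g = algebraMap k Ω η * w ^ N) :
    ∃! O : ValuationSubring F, s.ArisesFrom O := by
  classical
  have hΩ1 : IsAlgClosed Ω := IsAlgClosure.isAlgClosed F
  have hΩ2 : Algebra.IsAlgebraic F Ω := IsAlgClosure.isAlgebraic
  choose pl hpl using geoOver (toGal s)
  set A := toSAct (toGal s) with hA
  have hgA : algebraMap F Ω g ∈ A.fix :=
    (mem_fixS (toGal s)).2 fun σ => (s.hom σ).commutes g
  have hgK : ∀ b : k, algebraMap F Ω g ≠ algebraMap k Ω b := by
    intro b h1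
    apply hgT
    rw [IsScalarTower.algebraMap_apply k F Ω] at h1
    rw [(algebraMap F Ω).injective h1]
    exact isAlgebraic_algebraMap b
  obtain ⟨l, P, hP0, hP⟩ := one_function A pl hpl (K' := k) hgA hgK {η} (by
      intro η' h1
      rw [Finset.mem_singleton] at h1
      rwa [h1]) one_pos (by
    intro N hN _ a ha u hu hau
    obtain ⟨w, hw, hgw⟩ := h N hN
    have hw0 : w ≠ 0 := by
      rintro rfl
      rw [zero_pow hN.ne', mul_zero, ← map_zero (algebraMap k Ω)] at hgw
      exact hgK 0 hgw
    have hwn : w ^ N ≠ 0 := pow_ne_zero _ hw0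
    obtain ⟨r, hr, -⟩ := const_pow (A := A) (d := a * η) hN
      (div_mem hu ((mem_fixS (toGal s)).2 hw)) (z := u / w) (by
        rw [div_pow, ← hau, hgw, map_mul]
        field_simp)
    exact ⟨η, Finset.mem_singleton_self _, r, hr⟩)
  -- the function that vanishes everywhere
  set tau : F := (g - algebraMap k F l)⁻¹ with htau
  have htauT : Transcendental k tau := by
    intro h
    apply hgT
    have h1 : g = algebraMap k F l + tau⁻¹ := by
      rw [htau, inv_inv]
      ring
    rw [h1]
    exact (isAlgebraic_algebraMap l).add h.inv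
  obtain ⟨O, -, hO1, hO2⟩ := bir_of_val hF (toGal s) pl hpl (t := aeval tau P)
    (fun h => htauT ⟨P, hP0, h⟩) (fun v => by
      have h1 := hP v
      rw [IsScalarTower.algebraMap_apply k F Ω, ← map_sub, ← map_inv₀,
        aeval_algebraMap_apply] at h1
      exact h1)
  exact ⟨O, hO1, fun O' hO' => hO2 O' hO'⟩

/-- the main direction -/
theorem of_family (k' : Type) [Field k'] [NumberField k'] [Algebra k k'] {n : ℕ} (hn : 2 ≤ n)
    {c : Fin n → k} (hc : Function.Injective c) {D : ℕ} (hD : 0 < D)
    (H : ∀ N : ℕ, 0 < N → D ∣ N → ∀ a : Fin n → k, (∀ i, a i ≠ 0) → HasSection c N a →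
      HasPoint c N a k')
    (F Ω : Type) [Field F] [Field Ω] [Algebra k F] [Algebra F Ω] [Algebra k Ω]
    [IsScalarTower k F Ω] [IsAlgClosure F Ω]
    (hF : ∃ t : F, Transcendental k t ∧ Algebra.IsAlgebraic (IntermediateField.adjoin k {t}) F)
    (s : GaloisSection k F Ω) : ∃! O : ValuationSubring F, s.ArisesFrom O := by
  classical
  have hΩ1 : IsAlgClosed Ω := IsAlgClosure.isAlgClosed F
  have hΩ2 : Algebra.IsAlgebraic F Ω := IsAlgClosure.isAlgebraic
  obtain ⟨t, ht, htF⟩ := id hF
  set A := toSAct (toGal s) with hA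
  set L : IntermediateField k Ω := fixS (toGal s) with hLdef
  have hcF : CharZero F := charZero_of_injective_algebraMap (algebraMap k F).injective
  have hcΩ : CharZero Ω := charZero_of_injective_algebraMap (algebraMap k Ω).injective
  have hfixF : ∀ x : F, algebraMap F Ω x ∈ L := fun x σ => (s.hom σ).commutes x
  have hT : ∀ x : F, Transcendental k x → Transcendental k (algebraMap F Ω x) := by
    intro x hx h
    exact hx ((isAlgebraic_algebraMap_iff (algebraMap F Ω).injective).1 h)
  set x : L := ⟨algebraMap F Ω t, hfixF t⟩ with hx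
  have hxT : Transcendental k (x : Ω) := hT t ht
  have hL : ∀ z : L, IsAlgebraic k z → ∃ r : k, algebraMap k L r = z := by
    intro z hz
    have hz' : IsAlgebraic k (z : Ω) := hz.algebraMap
    obtain ⟨y, hy⟩ := alg_range A.j hz'
    obtain ⟨r, rfl⟩ := A.fix_j (z := y) (by
      rw [hy]
      exact (mem_fixS (toGal s)).2 z.2)
    rw [A.j.commutes] at hy
    exact ⟨r, Subtype.ext hy⟩
  have hxc : ∀ i, x - algebraMap k L (c i) ≠ 0 := by
    intro i h
    rw [sub_eq_zero] at h
    apply hxT
    rw [h]
    exact isAlgebraic_algebraMap (A := Ω) (c i)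
  have hK : ∀ i, ∀ N : ℕ, 0 < N → ∃ (a : k) (u : L),
      x - algebraMap k L (c i) = algebraMap k L a * u ^ N := by
    intro i N hN
    obtain ⟨a, ha, u, hu, hau⟩ := A.kummer (f := ((x - algebraMap k L (c i) : L) : Ω))
      ((mem_fixS (toGal s)).2 (x - algebraMap k L (c i) : L).2)
      (fun h => hxc i (Subtype.ext h)) hN
    exact ⟨a, ⟨u, (mem_fixS (toGal s)).1 hu⟩, Subtype.ext hau⟩
  have hres := Pool.Agent.Helper39.FC.core (k' := k') hn hc hL hxc hK hD (by
    intro N hN hDN a u ha hau
    refine (hasPoint_iff c N a k').1 (H N hN hDN a ha ?_)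
    set E1 : IntermediateField k Ω :=
      IntermediateField.adjoin k (insert (x : Ω) (Set.range fun i => (u i : Ω))) with hE1
    have hx1 : (x : Ω) ∈ E1 := IntermediateField.subset_adjoin _ _ (Set.mem_insert _ _)
    have hu1 : ∀ i, (u i : Ω) ∈ E1 := fun i =>
      IntermediateField.subset_adjoin _ _ (Set.mem_insert_of_mem _ ⟨i, rfl⟩)
    have hle : E1 ≤ fixS (toGal s) := by
      rw [hE1, IntermediateField.adjoin_le_iff]
      rintro y (rfl | ⟨i, rfl⟩)
      · exact x.2
      · exact (u i).2
    have hcl : IsAlgClosure E1 Ω := isAlgClosure_of (alg_adjoin_of_dim hF _ hxT) E1 hx1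
    refine ⟨E1, Ω, inferInstance, inferInstance, inferInstance, inferInstance, inferInstance,
        inferInstance, hcl, ⟨x, hx1⟩, fun i => ⟨u i, hu1 i⟩, ?_, ?_, ?_, ⟨restrict s E1 hle⟩⟩
    · intro h
      apply hxT
      exact (isAlgebraic_algebraMap_iff (A := Ω) (algebraMap E1 Ω).injective).2 h
    · exact adjoin_top E1 _ _ hE1
    · intro i
      have h1 : (x : Ω) - algebraMap k Ω (c i) = algebraMap k Ω (a i) * (u i : Ω) ^ N :=
        congrArg Subtype.val (hau i)
      exact Subtype.ext h1)
  rcases hres with ⟨y, hy⟩ | hinf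
  · obtain ⟨i, hi⟩ : ∃ i, c i ≠ y := by
      by_contra hcon
      push Not at hcon
      have h1 := hc ((hcon ⟨0, by omega⟩).trans (hcon ⟨1, by omega⟩).symm)
      rw [Fin.mk.injEq] at h1
      omega
    refine of_class F Ω hF s (t - algebraMap k F (c i)) ?_ (y - c i) (sub_ne_zero.2 (Ne.symm hi))
      fun N hN => ?_
    · intro h
      apply ht
      have h1 : t = (t - algebraMap k F (c i)) + algebraMap k F (c i) := by ring
      rw [h1]
      exact h.add (isAlgebraic_algebraMap _)
    · obtain ⟨w, hw⟩ := hy i hi N hN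
      refine ⟨w, w.2, ?_⟩
      have h1 := congrArg Subtype.val hw
      rw [map_sub, ← IsScalarTower.algebraMap_apply]
      exact h1
  · set i0 : Fin n := ⟨0, by omega⟩ with hi0
    set i1 : Fin n := ⟨1, by omega⟩ with hi1
    have hi01 : c i0 ≠ c i1 := fun h => by
      have := hc h
      rw [hi0, hi1, Fin.mk.injEq] at this
      omega
    have hne : ∀ i, t - algebraMap k F (c i) ≠ 0 := by
      intro i h
      apply ht
      rw [sub_eq_zero.1 h]
      exact isAlgebraic_algebraMap _
    have h01 : algebraMap k F (c i1) - algebraMap k F (c i0) ≠ 0 := by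
      rw [← map_sub]
      exact (_root_.map_ne_zero _).2 (sub_ne_zero.2 (Ne.symm hi01))
    set g : F := (t - algebraMap k F (c i0)) / (t - algebraMap k F (c i1)) with hg
    have hg1 : g - 1 ≠ 0 := by
      intro h
      have h1 := sub_eq_zero.1 h
      rw [hg, div_eq_one_iff_eq (hne i1)] at h1
      apply h01
      linear_combination h1
    refine of_class F Ω hF s g ?_ 1 one_ne_zero fun N hN => ?_
    · intro h
      apply ht
      have h1 : t = (algebraMap k F (c i1) * g - algebraMap k F (c i0)) * (g - 1)⁻¹ := by
        rw [← div_eq_mul_inv, eq_div_iff hg1, hg]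
        have := hne i1
        field_simp
        ring
      rw [h1]
      exact (((isAlgebraic_algebraMap _).mul h).sub (isAlgebraic_algebraMap _)).mul
        (h.sub isAlgebraic_one).inv
    · obtain ⟨w, hw⟩ := hinf i0 i1 N hN
      refine ⟨w, w.2, ?_⟩
      have h1 := congrArg Subtype.val hw
      have h2 : algebraMap F Ω (t - algebraMap k F (c i0)) =
          algebraMap F Ω (t - algebraMap k F (c i1)) * (w : Ω) ^ N := by
        rw [map_sub, map_sub, ← IsScalarTower.algebraMap_apply, ← IsScalarTower.algebraMap_apply]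
        exact h1
      have h3 : algebraMap F Ω (t - algebraMap k F (c i1)) ≠ 0 := (_root_.map_ne_zero _).2 (hne i1)
      rw [hg, map_div₀, h2, map_one, one_mul]
      field_simp

end forward

section converse

open Pool.Agent.TH954

variable {k F : Type} [Field k] [Field F] [Algebra k F]

/-- the place of `F` with values in `k` -/
lemma exists_place (O : ValuationSubring F) (h1 : ∀ c : k, algebraMap k F c ∈ O)
    (h2 : ∀ a ∈ O, ∃ c : k, O.valuation (a - algebraMap k F c) < 1) : Nonempty (Plc k F k) := by
  let i : k →+* O := (algebraMap k F).codRestrict O h1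
  let φ : k →+* IsLocalRing.ResidueField O := (IsLocalRing.residue O).comp i
  have hsurj : Function.Surjective φ := by
    intro r
    obtain ⟨a, rfl⟩ := IsLocalRing.residue_surjective r
    obtain ⟨c, hc⟩ := h2 a a.2
    refine ⟨c, ?_⟩
    have h3 : a - i c ∈ IsLocalRing.maximalIdeal O :=
      (ValuationSubring.valuation_lt_one_iff O (a - i c)).2 hc
    have h4 := (IsLocalRing.residue_eq_zero_iff _).2 h3
    rw [map_sub, sub_eq_zero] at h4
    exact h4.symm
  let e : k ≃+* IsLocalRing.ResidueField O := RingEquiv.ofBijective φ ⟨φ.injective, hsurj⟩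
  refine ⟨{ W := O, ρ := (e.symm : IsLocalRing.ResidueField O →+* k).comp (IsLocalRing.residue O),
            loc := fun a ha => ?_, comm := fun c => ⟨h1 c, ?_⟩ }⟩
  · have h3 : IsLocalRing.residue O a ≠ 0 := by
      intro h
      apply ha
      rw [RingHom.comp_apply, h, map_zero]
    rw [Ne, IsLocalRing.residue_eq_zero_iff, IsLocalRing.notMem_maximalIdeal] at h3
    obtain ⟨u, hu⟩ := h3
    have h4 : (a : F)⁻¹ = ((u⁻¹ : Oˣ) : O) := by
      apply inv_eq_of_mul_eq_one_right
      have h5 := congrArg (fun v : O => (v : F)) (u.mul_inv)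
      rw [hu] at h5
      exact h5
    rw [h4]
    exact ((u⁻¹ : Oˣ) : O).2
  · rw [RingHom.comp_apply]
    change e.symm (e c) = c
    exact e.symm_apply_apply c

/-- the easy direction, for a place -/
theorem point_of_place (pl : Plc k F k) {n : ℕ} (hn : 0 < n) {c a : Fin n → k}
    (ha : ∀ i, a i ≠ 0) {N : ℕ} (hN : 0 < N) {x : F} {X : Fin n → F}
    (hx : ∀ b : k, x ≠ algebraMap k F b)
    (h : ∀ i, x - algebraMap k F (c i) = algebraMap k F (a i) * X i ^ N) :
    HasPoint c N a k := by
  have haF : ∀ i, algebraMap k F (a i) ≠ 0 := fun i => (_root_.map_ne_zero _).2 (ha i)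
  have halg : ∀ b : k, pl.val (algebraMap k F b) b := fun b => Plc.val_alg (pl := pl) b
  by_cases hxW : x ∈ pl.W
  · obtain ⟨y, hy⟩ := Plc.val_of_mem hxW
    have h1 : ∀ i, ∃ r : k, r ^ N = (a i)⁻¹ * (y - c i) := by
      intro i
      have h2 : pl.val (algebraMap k F (a i)⁻¹ * (x - algebraMap k F (c i)))
          ((a i)⁻¹ * (y - c i)) := (halg _).mul (hy.sub (halg _))
      have h3 : algebraMap k F (a i)⁻¹ * (x - algebraMap k F (c i)) = X i ^ N := by
        rw [h i, map_inv₀]
        have := haF i
        field_simp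
      rw [h3] at h2
      obtain ⟨r, hr⟩ := Plc.val_of_mem (Plc.mem_of_pow_mem hN h2.mem)
      exact ⟨r, (hr.pow N).unique h2⟩
    choose r hr using h1
    refine ⟨r, 1, Or.inl one_ne_zero, fun i j => ?_⟩
    change a i * r i ^ N + c i * 1 ^ N = a j * r j ^ N + c j * 1 ^ N
    have hi := ha i
    have hj := ha j
    rw [hr, hr]
    field_simp
    ring
  · have hw : pl.val x⁻¹ 0 := Plc.val_inv_of_notMem hxW
    have hx0 : x ≠ 0 := by
      rintro rfl
      exact hxW (zero_mem _)
    set i0 : Fin n := ⟨0, hn⟩ with hi0
    have hX0 : X i0 ^ N ≠ 0 := by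
      intro h0
      have h1 := h i0
      rw [h0, mul_zero, sub_eq_zero] at h1
      exact hx _ h1
    have h1 : ∀ i, ∃ r : k, r ^ N = a i0 * (a i)⁻¹ := by
      intro i
      have h2 : ∀ i, pl.val (1 - algebraMap k F (c i) * x⁻¹) 1 := by
        intro i
        have := Plc.val_one.sub ((halg (c i)).mul hw)
        rwa [mul_zero, sub_zero] at this
      have h3 : pl.val (algebraMap k F (a i0 * (a i)⁻¹) *
          ((1 - algebraMap k F (c i) * x⁻¹) * (1 - algebraMap k F (c i0) * x⁻¹)⁻¹))
          (a i0 * (a i)⁻¹ * (1 * 1⁻¹)) :=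
        (halg _).mul ((h2 i).mul ((h2 i0).inv one_ne_zero))
      have h4 : algebraMap k F (a i0 * (a i)⁻¹) *
          ((1 - algebraMap k F (c i) * x⁻¹) * (1 - algebraMap k F (c i0) * x⁻¹)⁻¹) =
          (X i / X i0) ^ N := by
        have e1 : ∀ i, 1 - algebraMap k F (c i) * x⁻¹ = algebraMap k F (a i) * X i ^ N * x⁻¹ := by
          intro i
          rw [← h i]
          field_simp
        rw [e1, e1, map_mul, map_inv₀, div_pow]
        have h5 := haF i
        have h6 := haF i0
        field_simp
      rw [h4, inv_one, mul_one, mul_one] at h3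
      obtain ⟨r, hr⟩ := Plc.val_of_mem (Plc.mem_of_pow_mem hN h3.mem)
      exact ⟨r, (hr.pow N).unique h3⟩
    choose r hr using h1
    refine ⟨r, 0, Or.inr ⟨i0, fun h0 => ?_⟩, fun i j => ?_⟩
    · have h2 := hr i0
      rw [h0, zero_pow hN.ne', mul_inv_cancel₀ (ha i0)] at h2
      exact zero_ne_one h2
    · change a i * r i ^ N + c i * 0 ^ N = a j * r j ^ N + c j * 0 ^ N
      have hi := ha i
      have hj := ha j
      rw [hr, hr, zero_pow hN.ne', mul_zero, mul_zero]
      field_simp

lemma isAlgebraic_of {ι : Type} [Finite ι] {z : F} {y : ι → F}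
    (htop : IntermediateField.adjoin k (insert z (Set.range y)) = (⊤ : IntermediateField k F))
    (hy : ∀ i, IsIntegral (IntermediateField.adjoin k {z}) (y i)) :
    Algebra.IsAlgebraic (IntermediateField.adjoin k {z}) F := by
  have h1 : Algebra.IsAlgebraic (IntermediateField.adjoin k {z})
      (IntermediateField.adjoin (IntermediateField.adjoin k {z}) (Set.range y)) :=
    IntermediateField.isAlgebraic_adjoin (by
      rintro _ ⟨i, rfl⟩
      exact hy i)
  have h2 : IntermediateField.adjoin (IntermediateField.adjoin k {z}) (Set.range y) = ⊤ := by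
    apply IntermediateField.restrictScalars_injective k
    rw [IntermediateField.adjoin_adjoin_left, IntermediateField.restrictScalars_top, ← htop]
    congr 1
  rw [h2] at h1
  refine ⟨fun x => ?_⟩
  have h3 := h1.isAlgebraic ⟨x, IntermediateField.mem_top⟩
  exact (isAlgebraic_algebraMap_iff (A := F) (algebraMap (⊤ : IntermediateField (IntermediateField.adjoin k {z}) F) F).injective).2 h3

end converse

/-- **Theorem.** Let `k` be a number field, `k'` a finite extension of `k`, `c i` at least two distinct
elements of `k`, and `D ≥ 1`. The following are equivalent: (1) the birational section conjecture over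
`k`; (2) for all `N ≥ 1` and all nonzero `a i ∈ k`, if there is a section for the function field of the
curve `a i * X i ^ N + c i * W ^ N = a j * X j ^ N + c j * W ^ N` (for all `i`, `j`), then the curve has
a point over `k`; (3) for all multiples `N ≥ 1` of `D` and all nonzero `a i ∈ k`, if there is a section
for the function field of this curve, then it has a point over `k'`. In the case of the two elements
`0`, `1` the curves are `a X ^ N = b Y ^ N + W ^ N`, i.e. all twisted Fermat curves. -/
theorem result (k : Type) [Field k] [NumberField k] (k' : Type) [Field k'] [NumberField k']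
    [Algebra k k'] (n : ℕ) (hn : 2 ≤ n) (c : Fin n → k) (hc : Function.Injective c)
    (D : ℕ) (hD : 0 < D) :
    List.TFAE [
      BirationalSectionConjecture k,
      ∀ N : ℕ, 0 < N → ∀ a : Fin n → k, (∀ i, a i ≠ 0) → HasSection c N a → HasPoint c N a k,
      ∀ N : ℕ, 0 < N → D ∣ N → ∀ a : Fin n → k, (∀ i, a i ≠ 0) → HasSection c N a →
        HasPoint c N a k'] := by
  tfae_have 1 → 2 := by
    rintro H N hN a ha ⟨F, Ω, _, _, _, _, _, _, _, x, X, hx, htop, hxX, ⟨s⟩⟩
    have hFG : (⊤ : IntermediateField k F).FG := by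
      rw [← htop]
      exact IntermediateField.fg_def.2 ⟨_, (Set.finite_range X).insert x, rfl⟩
    have hint : ∀ i, IsIntegral (IntermediateField.adjoin k {x}) (X i) := by
      intro i
      refine IsIntegral.of_pow hN ?_
      have hXm : x ∈ IntermediateField.adjoin k {x} := IntermediateField.mem_adjoin_simple_self k x
      have haF : algebraMap k F (a i) ≠ 0 := (_root_.map_ne_zero _).2 (ha i)
      have h1 : X i ^ N ∈ IntermediateField.adjoin k {x} := by
        have h2 : X i ^ N = (x - algebraMap k F (c i)) / algebraMap k F (a i) := by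
          rw [hxX]
          field_simp
        rw [h2]
        exact div_mem (sub_mem hXm (IntermediateField.algebraMap_mem _ _))
          (IntermediateField.algebraMap_mem _ _)
      exact isIntegral_algebraMap (x := (⟨X i ^ N, h1⟩ : IntermediateField.adjoin k {x}))
    obtain ⟨O, ⟨-, h1, h2, -⟩, -⟩ := H F Ω hFG ⟨x, hx, isAlgebraic_of htop hint⟩ s
    obtain ⟨pl⟩ := exists_place O h1 h2
    refine point_of_place pl (by omega) ha hN (fun b h => hx ?_) hxX
    rw [h]
    exact isAlgebraic_algebraMap b
  tfae_have 2 → 3 := by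
    intro H N hN _ a ha hs
    exact (hasPoint_iff c N a k').2 (((hasPoint_iff c N a k).1 (H N hN a ha hs)).map)
  tfae_have 3 → 1 := by
    intro H F Ω _ _ _ _ _ _ _ _ hF s
    exact of_family k' hn hc hD H F Ω hF s
  tfae_finish

end Pool.Agent.Results.MP_8312c9_nt.FermatCurves
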