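import Pool.Agent.Helper88.MT.Conv

/-!
# Birational sections over number fields which lift modulo two

Let `k` be a number field, `F` the function field of a curve over `k`, and `s` a section of
`G_F → G_k`.

**Theorem.** (1) Let `x` be any nonconstant function. The section arises from a rational point if and
only if its Kummer classes modulo squares at the functions `x - c`, `c` in `k`, are interpolated by a
polynomial: there is a polynomial `f ≠ 0` such that for almost all `c` in `k` the function `x - c` is
`f(c)` times the square of an element fixed by `s`.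

(2) This holds if the base change of `s` to `k(t)`, a section of `Gal(Fbar(t) kbar(t)bar / F(t))`, lifts
to the extension which is generated over it by the elements `√(p + q √a)`, with `p, q, a` in `F(t)`. So
`s` arises from a rational point if its base change to `k(t)` lifts modulo two, to a 2-extension given by
quadratic, cyclic quartic and dihedral extensions of `F(t)` only.

The converse of (2) is well known: if `s` arises from a rational point, its base change lifts to the full
Galois group of `F(t)`. That lifts to the full Galois group imply that `s` arises from a point is a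
theorem of G. Bresciani (Inventiones 2024).

The proof. (1) At a finite place `v` of `k`, Koenigsmann's theorem (library) gives a local point `x_v` of
the line. If `x_v` is finite and `f(x_v) ≠ 0`, then `f(c) (x_v - c)` is a square in `k_v` for almost all
`c` in `k`; for `c` tending to `x_v` the first factor has the class of `f(x_v)`, but the second factor has
all the classes. So all local points are zeros of `f` or infinity; then the limit of the places of `F`
over the `k_v` is a rational point (library). (2) The lift gives classes `κ` for the functions in `F(t)`.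
The lift to the dihedral extension given by `√(1 + √((x - t) / (x - c)))` shows that the quaternion
algebra `(κ(x - t) κ(x - c), (t - c) κ(x - c))` over `k(t)` splits; its residue at `t = c` is
`κ(x - t)(c) κ(x - c)`, so that `κ(x - c)` is the value at `t = c` of `κ(x - t)`.
-/

set_option autoImplicit false

open Polynomial

namespace Pool.Agent.Results.MP_8312c9_nt.LiftingModuloTwo

variable {k F Ω : Type} [Field k] [Field F] [Field Ω] [Algebra k F] [Algebra F Ω] [Algebra k Ω]

/-- `Ω` is an algebraically closed field which contains `F`. A section of the restriction map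
`Gal(Fbar/F) → Gal(kbar/k)`, where `Fbar` and `kbar` are the algebraic closures of `F` and `k` in `Ω`. -/
structure GaloisSection (k F Ω : Type) [Field k] [Field F] [Field Ω] [Algebra k F] [Algebra F Ω]
    [Algebra k Ω] where
  /-- the homomorphism -/
  hom : (algebraicClosure k Ω ≃ₐ[k] algebraicClosure k Ω) →*
    (algebraicClosure F Ω ≃ₐ[F] algebraicClosure F Ω)
  cont : Continuous hom
  sec : ∀ (g : algebraicClosure k Ω ≃ₐ[k] algebraicClosure k Ω) (x : algebraicClosure k Ω)
    (hx : (x : Ω) ∈ algebraicClosure F Ω),
    ((hom g ⟨x, hx⟩ : algebraicClosure F Ω) : Ω) = ((g x : algebraicClosure k Ω) : Ω)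

/-- The section arises from the rational point with the valuation ring `O`: `O` is a nontrivial
valuation ring of `F` over `k` with residue field `k`, and the automorphisms `hom g` map some valuation
ring `W` of `Fbar` above `O` to itself. -/
def GaloisSection.ArisesFrom (s : GaloisSection k F Ω) (O : ValuationSubring F) : Prop :=
  (O ≠ ⊤ ∧ (∀ c : k, algebraMap k F c ∈ O) ∧
    (∀ a ∈ O, ∃ c : k, O.valuation (a - algebraMap k F c) < 1)) ∧
    ∃ W : ValuationSubring (algebraicClosure F Ω), W.comap (algebraMap F _) = O ∧
      ∀ (g : algebraicClosure k Ω ≃ₐ[k] algebraicClosure k Ω) (x : algebraicClosure F Ω),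
        (s.hom g x ∈ W ↔ x ∈ W)

/-- The Kummer classes modulo squares of `s` at the functions `x - c` are the values of a polynomial
`f ≠ 0`, for all `c` outside a finite set `S`. -/
def GaloisSection.Interpolated (s : GaloisSection k F Ω) (x : F) : Prop :=
  ∃ (f : k[X]) (S : Finset k), f ≠ 0 ∧ ∀ c ∉ S, ∃ w : algebraicClosure F Ω,
    (∀ g : algebraicClosure k Ω ≃ₐ[k] algebraicClosure k Ω, s.hom g w = w) ∧
      algebraMap F Ω (x - algebraMap k F c) = algebraMap k Ω (f.eval c) * (w : Ω) ^ 2

/-- Let `K` be a field between `k` and `Ω`. The automorphism `g₀` of `kbar` is the restriction of the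
automorphism `g` of `Kbar`. -/
def Restricts (K : IntermediateField k Ω) (g : algebraicClosure K Ω ≃ₐ[K] algebraicClosure K Ω)
    (g₀ : algebraicClosure k Ω ≃ₐ[k] algebraicClosure k Ω) : Prop :=
  ∀ (x : algebraicClosure k Ω) (y : algebraicClosure K Ω), (y : Ω) = (x : Ω) →
    ((g y : algebraicClosure K Ω) : Ω) = ((g₀ x : algebraicClosure k Ω) : Ω)

/-- Let `K` be a field between `k` and `Ω`, `E` a field between `F` and `Ω`, and `F₂` an extension of
`E`. A section `hom` of `Gal(F₂/E)` over `Gal(Kbar/K)` which lifts the section `s`: the automorphism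
`hom g` is `g` on the elements of `F₂` which are algebraic over `K`, and it is `s g₀` on the elements of
`F₂` which are algebraic over `F`, if `g₀` is the restriction of `g`. -/
structure Lift (s : GaloisSection k F Ω) (K : IntermediateField k Ω) (E : IntermediateField F Ω)
    (F₂ : IntermediateField E Ω) where
  /-- the homomorphism -/
  hom : (algebraicClosure K Ω ≃ₐ[K] algebraicClosure K Ω) →* (F₂ ≃ₐ[E] F₂)
  cont : Continuous hom
  sec : ∀ (g : algebraicClosure K Ω ≃ₐ[K] algebraicClosure K Ω) (x : algebraicClosure K Ω)
    (hx : (x : Ω) ∈ F₂), ((hom g ⟨x, hx⟩ : F₂) : Ω) = ((g x : algebraicClosure K Ω) : Ω)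
  lifts : ∀ (g : algebraicClosure K Ω ≃ₐ[K] algebraicClosure K Ω)
    (g₀ : algebraicClosure k Ω ≃ₐ[k] algebraicClosure k Ω), Restricts K g g₀ →
    ∀ (x : algebraicClosure F Ω) (hx : (x : Ω) ∈ F₂),
      ((hom g ⟨x, hx⟩ : F₂) : Ω) = ((s.hom g₀ x : algebraicClosure F Ω) : Ω)

/-- Let `t` be an element of `Ω`. The base change of `s` to `k(t)` lifts modulo two: it lifts to a
Galois extension `F₂` of `F(t)` in `Ω` which contains `Fbar` and the square roots of all `p + q r` with
`p`, `q`, `r ^ 2` in `F(t)`. -/
def GaloisSection.LiftsModuloTwo (s : GaloisSection k F Ω) (t : Ω) : Prop :=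
  ∃ F₂ : IntermediateField (IntermediateField.adjoin F {t}) Ω,
    IsGalois (IntermediateField.adjoin F {t}) F₂ ∧
    (∀ x ∈ algebraicClosure F Ω, x ∈ F₂) ∧
    (∀ p q r u : Ω, p ∈ IntermediateField.adjoin F {t} → q ∈ IntermediateField.adjoin F {t} →
      r ^ 2 ∈ IntermediateField.adjoin F {t} → u ^ 2 = p + q * r → u ∈ F₂) ∧
    Nonempty (Lift s (IntermediateField.adjoin k {t}) (IntermediateField.adjoin F {t}) F₂)

/-- **Theorem.** -/
theorem result :
  -- a number field `k`, the function field `F` of a curve over `k`, an algebraically closed field `Ω`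
  -- which contains `F`, and a section `s`
  ∀ (k F Ω : Type) [Field k] [NumberField k] [Field F] [Field Ω] [Algebra k F] [Algebra F Ω]
    [Algebra k Ω] [IsScalarTower k F Ω] [IsAlgClosed Ω],
    (∃ t : F, Transcendental k t ∧ Algebra.IsAlgebraic (IntermediateField.adjoin k {t}) F) →
  ∀ s : GaloisSection k F Ω,
    -- (1) for each nonconstant function `x`, `s` arises from exactly one rational point if and only if
    -- the classes of `s` at `x - c` are interpolated by a polynomial
    (∀ x : F, Transcendental k x →
      ((∃! O : ValuationSubring F, s.ArisesFrom O) ↔ s.Interpolated x)) ∧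
    -- (2) if the base change of `s` to `k(t)` lifts modulo two, `s` arises from exactly one rational
    -- point
    (∀ t : Ω, Transcendental F t → s.LiftsModuloTwo t →
      ∃! O : ValuationSubring F, s.ArisesFrom O) := by
  intro k F Ω _ _ _ _ _ _ _ _ _ hF s
  obtain ⟨x₀, hx₀, -⟩ := id hF
  refine ⟨fun x hx => ⟨fun h => ?_, fun h => ?_⟩, fun t ht h => ?_⟩
  · obtain ⟨O, ⟨⟨-, h2, h3⟩, W, hW, hs⟩, -⟩ := h
    exact Pool.Agent.Helper88.MT.interp_of_geom s.hom s.cont s.sec hx O h2 h3 W hW hs
  · obtain ⟨f, S, hf, H⟩ := h
    exact Pool.Agent.Helper88.MT.of_interp' hF s.hom s.cont s.sec hx f hf S H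
  · obtain ⟨F₂, _, hF₂, hF₂', ⟨s₂⟩⟩ := h
    obtain ⟨f, S, hf, H⟩ := Pool.Agent.Helper88.MT.bir_two s.hom s.cont s.sec t ht _ rfl _ rfl F₂
      hF₂ hF₂' s₂.hom s₂.cont s₂.sec (fun g g₀ hg x => s₂.lifts g g₀ hg x (hF₂ x x.2)) hx₀
    exact Pool.Agent.Helper88.MT.of_interp' hF s.hom s.cont s.sec hx₀ f hf S H

end Pool.Agent.Results.MP_8312c9_nt.LiftingModuloTwo
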