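import Pool.Agent.Helper39.FX.Main
import Pool.Agent.Helper88.FX.Final
import Pool.Agent.Helper88.FX.Crv

/-!
# The birational section conjecture over fields of positive transcendence degree

The birational section conjecture holds over every finitely generated field `k` of characteristic zero
which is not algebraic over `ℚ`: for every curve over `k`, every section of its birational Galois group
arises from exactly one rational point. The theorem is the frozen statement `S17615` with the single
additional hypothesis that `k` has an element which is transcendental over `ℚ`. There is no hypothesis
on the section, on the curve or on its Jacobian. So the conjecture for all finitely generated fields is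
the conjecture for number fields.

The proof. Let `k1` be a finite extension of `k` and `K` a subfield of `k1`, algebraically closed in `k1`,
such that `k1` is a finite Galois extension of `K(T)`, of degree `n`, generated by `α` with the minimal
polynomial `f(T, S)`. Let `F0` be the fixed field of the section over `k1`. By the theorem of Koenigsmann a
section gives a rational point over `L_v` for every place `v` of a number field `L` and every embedding
`φ` of `k1` in `L_v`; so a function `x` in `F0` has a value `x(φ)` in `L_v`, for each point `φ = (t, s)` of the
curve `f = 0`. By Kummer theory, for each `N`, the values `x(t, s)` are in the classes of `A(t, s)` modulo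
`N`-th powers, for a polynomial `A` over `K` which depends only on `x` and `N`.
* Let `D` be a system of places of `K` with the residue fields `F_q`, `q = p^m`, and the same reduction
  `K → F_p`. By the Nullstellensatz (Bertini and Noether) the reduction of `f` is irreducible. Let `a` be
  in `F_q` such that the `n` points `(a, b)` of the reduced curve above `a` are rational. There are
  `q^(2n)` classes modulo `π^(2n+1)` of points `t` in the residue disk of `a`, so for two of them the
  values of `x` at the `n` points above have the same residues. The comparison of the classes modulo
  `p^(2n)` of `x` and `x - 1` shows that these residues are `R(a, b)` for a rational function `R` on the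
  reduced curve.
* Replacing `x` by `y = T + l x'` for a small integer `l`, where `x'` is one of `x`, `1/x`, `xT`, `1/(xT)`, the
  coefficients of the characteristic polynomial of `R` over `F_p(T)` have a nonzero Wronskian. The norms
  of `R - c`, `c = 0, ..., n + 1`, have the multiplicities of the norms of the classes of `y - c` modulo
  `N`, and a theorem of the type of Mason, Stothers and Voloch bounds their degree, for one fixed `N`,
  independently of `D`.
* So for each integer `c` the norms of the classes of `y - c` modulo all `N` are those of a rational
  function `g_c` in `K(T)`, up to constants. As `L_v` has no infinitely divisible elements other than `1`,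
  this determines the polynomials `∏ (Z - y(t, s))`, the product over the `n` points above `t`: their
  values at `c` are proportional to `g_c(t)`, and the `g_c` are linearly independent by the reduction
  modulo `p`. It follows that all the values `y(t, s)` at all places are roots of `Ψ(t, Z)` for one
  polynomial `Ψ(T, Z)` over `K[T]`.
* The function `Ψ(T, y)` is not zero and vanishes at all places. This gives a valuation ring which is
  stable under the section, and a rational point.
-/

set_option autoImplicit false

namespace Pool.Agent.Results.MP_8312c9_nt.PositiveTranscendenceDegree

/-- **Theorem.** The birational section conjecture over all finitely generated fields `k` of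
characteristic zero and positive transcendence degree over `ℚ`. (The frozen statement `S17615` with the
additional hypothesis `∃ x : k, Transcendental ℚ x`.) -/
theorem result :
  ∀ (k : Type) [Field k] [CharZero k], (⊤ : IntermediateField ℚ k).FG →
  (∃ x : k, Transcendental ℚ x) →
  ∀ (K : Type) [Field K] [Algebra k K], (⊤ : IntermediateField k K).FG →
  (∃ t : K, Transcendental k t ∧ Algebra.IsAlgebraic (IntermediateField.adjoin k {t}) K) →
  (∀ x : K, IsAlgebraic k x → x ∈ (algebraMap k K).range) →
  ∀ s : (algebraicClosure k (AlgebraicClosure K) ≃ₐ[k] algebraicClosure k (AlgebraicClosure K)) →*
      (AlgebraicClosure K ≃ₐ[K] AlgebraicClosure K),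
  Continuous s →
  (∀ (g : algebraicClosure k (AlgebraicClosure K) ≃ₐ[k] algebraicClosure k (AlgebraicClosure K))
     (x : algebraicClosure k (AlgebraicClosure K)),
     s g (x : AlgebraicClosure K) = ((g x : algebraicClosure k (AlgebraicClosure K)) : AlgebraicClosure K)) →
  ∃! O : ValuationSubring K,
    O ≠ ⊤ ∧ (∀ c : k, algebraMap k K c ∈ O) ∧
    (∀ a ∈ O, ∃ c : k, O.valuation (a - algebraMap k K c) < 1) ∧
    ∃ W : ValuationSubring (AlgebraicClosure K),
      W.comap (algebraMap K (AlgebraicClosure K)) = O ∧
      ∀ (g : algebraicClosure k (AlgebraicClosure K) ≃ₐ[k] algebraicClosure k (AlgebraicClosure K))
        (x : AlgebraicClosure K), (s g x ∈ W ↔ x ∈ W) := by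
  intro k _ _ hk hx K _ _ hK ht _ s hs hsec
  have hess : Algebra.EssFiniteType ℚ k := IntermediateField.fg_top_iff.1 hk
  exact Pool.Agent.Helper88.FX.Final.final Pool.Agent.Helper88.FX.Crv.main
    Pool.Agent.Helper39.FX.allc_main k hx K (AlgebraicClosure K) hK ht ⟨s, hs, hsec⟩

end Pool.Agent.Results.MP_8312c9_nt.PositiveTranscendenceDegree
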