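import Pool.Agent.Helper39.BS.Res
import Pool.Agent.Helper80.UC.HE

/-!
# The birational section conjecture over a number field and a three-parameter family of curves

Let `k` be a number field and `f` a separable polynomial over `k` of odd degree at least five. The
birational section conjecture over `k`, for all curves over `k`, holds if and only if the curves
`y ^ 2 = γ * f (b + c * z ^ 2)`, `γ, b, c ∈ k`, `γ, c ≠ 0`, the birational Galois group of which has a
section, have a rational point. For `f` of degree five these are curves of genus four, double coverings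
of the quadratic twists of the one curve `y ^ 2 = f (x)` of genus two.
-/

set_option autoImplicit false

open Polynomial IsDedekindDomain NumberField

namespace Pool.Agent.Results.MP_8312c9_nt.ThreeParameterFamily

/-- Let `F` be an extension of `k`, `Ω` an algebraic closure of `F`, and `kbar` the algebraic closure
of `k` in `Ω`. A section of the restriction map `Gal(Ω/F) → Gal(kbar/k)`: a continuous homomorphism
`hom` such that `hom g` is `g` on `kbar`. -/
structure GaloisSection (k F Ω : Type) [Field k] [Field F] [Field Ω] [Algebra k Ω] [Algebra F Ω] where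
  /-- the homomorphism -/
  hom : (algebraicClosure k Ω ≃ₐ[k] algebraicClosure k Ω) →* (Ω ≃ₐ[F] Ω)
  cont : Continuous hom
  sec : ∀ (g : algebraicClosure k Ω ≃ₐ[k] algebraicClosure k Ω) (x : algebraicClosure k Ω),
    hom g (x : Ω) = ((g x : algebraicClosure k Ω) : Ω)

/-- The section arises from the rational point with the valuation ring `O`: `O` is a nontrivial
valuation ring of `F` over `k` with residue field `k`, and the automorphisms `hom g` map some valuation
ring `W` of `Ω` above `O` to itself. -/
def GaloisSection.ArisesFrom {k F Ω : Type} [Field k] [Field F] [Field Ω] [Algebra k Ω]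
    [Algebra F Ω] [Algebra k F] (s : GaloisSection k F Ω) (O : ValuationSubring F) : Prop :=
  O ≠ ⊤ ∧ (∀ c : k, algebraMap k F c ∈ O) ∧
    (∀ a ∈ O, ∃ c : k, O.valuation (a - algebraMap k F c) < 1) ∧
    ∃ W : ValuationSubring Ω, W.comap (algebraMap F Ω) = O ∧
      ∀ (g : algebraicClosure k Ω ≃ₐ[k] algebraicClosure k Ω) (x : Ω), (s.hom g x ∈ W ↔ x ∈ W)

/-- The birational section conjecture over `k`: for every function field `F` of a curve over `k`
(finitely generated, algebraic over `k (t)` for a transcendental `t`), every section arises from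
exactly one rational point. -/
def BirationalSectionConjecture (k : Type) [Field k] : Prop :=
  ∀ (F Ω : Type) [Field F] [Field Ω] [Algebra k F] [Algebra F Ω] [Algebra k Ω]
    [IsScalarTower k F Ω] [IsAlgClosure F Ω], (⊤ : IntermediateField k F).FG →
    (∃ t : F, Transcendental k t ∧ Algebra.IsAlgebraic (IntermediateField.adjoin k {t}) F) →
    ∀ s : GaloisSection k F Ω, ∃! O : ValuationSubring F, s.ArisesFrom O

/-- There is a section for the function field `k (z, y)` of the curve `y ^ 2 = γ * f (b + c * z ^ 2)`. -/
def HasSection {k : Type} [Field k] (f : k[X]) (γ b c : k) : Prop :=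
  ∃ (F Ω : Type) (_ : Field F) (_ : Field Ω) (_ : Algebra k F) (_ : Algebra F Ω)
    (_ : Algebra k Ω) (_ : IsScalarTower k F Ω) (_ : IsAlgClosure F Ω) (z y : F),
    Transcendental k z ∧ IntermediateField.adjoin k {z, y} = (⊤ : IntermediateField k F) ∧
    y ^ 2 = algebraMap k F γ * aeval (algebraMap k F b + algebraMap k F c * z ^ 2) f ∧
    Nonempty (GaloisSection k F Ω)

/-- The curve `y ^ 2 = γ * f (b + c * z ^ 2)`, where `f` has odd degree, has a `k`-rational point: a
point `(z, y)`, or the points at infinity, which are rational if and only if `γ * c` times the leading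
coefficient of `f` is a square. -/
def HasRationalPoint {k : Type} [Field k] (f : k[X]) (γ b c : k) : Prop :=
  (∃ z y : k, y ^ 2 = γ * f.eval (b + c * z ^ 2)) ∨ ∃ r : k, r ^ 2 = γ * c * f.leadingCoeff

section

open Pool.Agent.TH954 Pool.Agent.Helper39.BS

variable {k F Ω : Type} [Field k] [Field F] [Field Ω] [Algebra k Ω] [Algebra F Ω] [Algebra k F]

/-- the section in the sense of the library -/
def toGal (s : GaloisSection k F Ω) : GalSection k F Ω (algebraicClosure k Ω) where
  j := (algebraicClosure k Ω).val
  s := s.hom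
  cont := s.cont
  sec := s.sec

lemma arises_iff (s : GaloisSection k F Ω) (O : ValuationSubring F) :
    s.ArisesFrom O ↔ (toGal s).ArisesFrom O := Iff.rfl

/-- the section over a subfield of the fixed field -/
noncomputable def restrict [IsScalarTower k F Ω] [IsAlgClosure F Ω] [IsAlgClosed Ω]
    (s : GaloisSection k F Ω)
    (E : IntermediateField k Ω) (hE : E ≤ fixS (toGal s)) : GaloisSection k E Ω where
  hom := (restr (toGal s) E hE).s
  cont := (restr (toGal s) E hE).cont
  sec := (restr (toGal s) E hE).sec

lemma adjoin_top (E : IntermediateField k Ω) (z y : E)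
    (hE : E = IntermediateField.adjoin k {(z : Ω), (y : Ω)}) :
    IntermediateField.adjoin k {z, y} = (⊤ : IntermediateField k E) := by
  apply IntermediateField.lift_injective E
  rw [IntermediateField.lift_top, IntermediateField.lift_adjoin, Set.image_pair]
  exact hE.symm

lemma isAlgClosure_of [IsAlgClosed Ω] {z : Ω} (h : Algebra.IsAlgebraic (Algebra.adjoin k {z}) Ω)
    (E : IntermediateField k Ω) (hz : z ∈ E) : IsAlgClosure E Ω := by
  refine ⟨‹_›, ⟨fun w => ?_⟩⟩
  obtain ⟨p, hp0, hp⟩ := h.isAlgebraic w
  have hle : Algebra.adjoin k {z} ≤ E.toSubalgebra := by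
    rw [Algebra.adjoin_le_iff]
    rintro _ rfl
    exact hz
  let i : Algebra.adjoin k {z} →+* E := (Subalgebra.inclusion hle).toRingHom
  have hi : Function.Injective i := Subalgebra.inclusion_injective hle
  refine ⟨p.map i, (Polynomial.map_ne_zero_iff hi).2 hp0, ?_⟩
  rw [Polynomial.aeval_def, Polynomial.eval₂_map]
  exact hp

end

section forward

open Pool.Agent.TH954 Pool.Agent.Helper39.BS Pool.Agent.TH213.SEL

variable {k : Type} [Field k] [NumberField k]

/-- the main direction -/
theorem of_family (f : k[X]) (hf : f.Separable) (h5 : 5 ≤ f.natDegree)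
    (H : ∀ γ b c : k, γ ≠ 0 → c ≠ 0 → HasSection f γ b c → HasRationalPoint f γ b c)
    (F Ω : Type) [Field F] [Field Ω] [Algebra k F] [Algebra F Ω] [Algebra k Ω]
    [IsScalarTower k F Ω] [IsAlgClosure F Ω]
    (hF : ∃ t : F, Transcendental k t ∧ Algebra.IsAlgebraic (IntermediateField.adjoin k {t}) F)
    (s : GaloisSection k F Ω) : ∃! O : ValuationSubring F, s.ArisesFrom O := by
  classical
  have hΩ1 : IsAlgClosed Ω := IsAlgClosure.isAlgClosed F
  have hΩ2 : Algebra.IsAlgebraic F Ω := IsAlgClosure.isAlgebraic
  obtain ⟨t, ht, htF⟩ := id hF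
  choose pl hpl using geoOver (toGal s)
  set A := toSAct (toGal s) with hA
  set x : Ω := algebraMap F Ω t with hx
  have hxT : Transcendental k x := by
    intro h
    exact ht ((isAlgebraic_algebraMap_iff (algebraMap F Ω).injective).1 h)
  have hxA : x ∈ A.fix := (mem_fixS (toGal s)).2 fun g => (s.hom g).commutes t
  have hxK : ∀ b : k, x ≠ algebraMap k Ω b := by
    intro b h
    exact hxT (h ▸ isAlgebraic_algebraMap b)
  have hf0 : f ≠ 0 := hf.ne_zero
  -- the class of `f x`
  have hfx : aeval x f ∈ A.fix := by
    rw [aeval_eq_sum_range]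
    refine sum_mem fun i _ => ?_
    rw [Algebra.smul_def]
    exact mul_mem (A.fix.algebraMap_mem _) (pow_mem hxA i)
  have hfx0 : aeval x f ≠ 0 := fun h => hxT ⟨f, hf0, h⟩
  obtain ⟨γ, hγ, w, hw, hγw⟩ := A.kummer hfx hfx0 two_pos
  have hγΩ : algebraMap k Ω γ ≠ 0 := (_root_.map_ne_zero _).2 hγ
  set y : Ω := algebraMap k Ω γ * w with hy
  have hyA : y ∈ A.fix := mul_mem (A.fix.algebraMap_mem _) hw
  have hy2 : y ^ 2 = algebraMap k Ω γ * aeval x f := by
    rw [hγw, hy]
    ring
  -- the finite set
  have hfin : {e : k | ∃ y, y ^ 2 = (C γ * f).eval e}.Finite := by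
    refine Pool.Agent.Helper80.UC.hyperelliptic (C γ * f) ?_ ?_
    · have hu : IsUnit (C γ) := isUnit_C.2 hγ.isUnit
      unfold Separable
      rw [derivative_C_mul]
      exact (isCoprime_mul_unit_left hu f (derivative f)).2 hf
    · rwa [natDegree_C_mul hγ]
  set E := hfin.toFinset with hE
  have hEmem : ∀ e, e ∈ E ↔ ∃ y, y ^ 2 = γ * f.eval e := by
    intro e
    rw [hE, Set.Finite.mem_toFinset]
    simp only [Set.mem_ofPred_eq, eval_mul, eval_C]
  have hκ : γ * f.leadingCoeff ≠ 0 := mul_ne_zero hγ (leadingCoeff_ne_zero.2 hf0)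
  have hsep := separation A pl hpl hxA hxK E hκ (by
    intro b c hc z hz hbz
    have hxe : x = algebraMap k Ω b + algebraMap k Ω c * z ^ 2 := by
      rw [← hbz]
      ring
    have hzT : Transcendental k z := by
      intro h
      apply hxT
      rw [hxe]
      exact (isAlgebraic_algebraMap b).add ((isAlgebraic_algebraMap c).mul (h.pow 2))
    set E1 : IntermediateField k Ω := IntermediateField.adjoin k {z, y} with hE1
    have hz1 : z ∈ E1 := IntermediateField.subset_adjoin _ _ (Set.mem_insert _ _)
    have hy1 : y ∈ E1 := IntermediateField.subset_adjoin _ _ (Set.mem_insert_of_mem _ rfl)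
    have hle : E1 ≤ fixS (toGal s) := by
      rw [hE1, IntermediateField.adjoin_le_iff]
      rintro u (rfl | rfl)
      · exact (mem_fixS (toGal s)).1 hz
      · exact (mem_fixS (toGal s)).1 hyA
    have hcl : IsAlgClosure E1 Ω := isAlgClosure_of (alg_adjoin_of_dim hF z hzT) E1 hz1
    have hsec : HasSection f γ b c := by
      refine ⟨E1, Ω, inferInstance, inferInstance, inferInstance, inferInstance, inferInstance,
        inferInstance, hcl, ⟨z, hz1⟩, ⟨y, hy1⟩, ?_, ?_, ?_, ⟨restrict s E1 hle⟩⟩
      · intro h
        apply hzT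
        exact (isAlgebraic_algebraMap_iff (A := Ω) (algebraMap E1 Ω).injective).2 h
      · exact adjoin_top E1 _ _ hE1
      · apply (algebraMap E1 Ω).injective
        change y ^ 2 = _
        rw [hy2, hxe]
        rw [map_mul, ← IsScalarTower.algebraMap_apply, ← aeval_algebraMap_apply]
        rw [map_add, map_mul, ← IsScalarTower.algebraMap_apply, ← IsScalarTower.algebraMap_apply]
        rfl
    rcases H γ b c hγ hc hsec with ⟨z0, y0, h0⟩ | ⟨r, hr⟩
    · left
      refine ⟨b + c * z0 ^ 2, (hEmem _).2 ⟨y0, h0⟩, z0, by ring⟩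
    · right
      exact ⟨r, by rw [hr]; ring⟩)
  rcases hsep with ⟨e, -, he⟩ | hinf
  · obtain ⟨O, -, hO1, hO2⟩ := bir_of_val hF (toGal s) pl hpl (t := t - algebraMap k F e) (by
      intro h
      exact hxK e (by rw [hx, sub_eq_zero.1 h, ← IsScalarTower.algebraMap_apply])) (fun v => by
      rw [map_sub, ← IsScalarTower.algebraMap_apply]
      exact he v)
    exact ⟨O, hO1, fun O' hO' => hO2 O' hO'⟩
  · obtain ⟨O, -, hO1, hO2⟩ := bir_of_val hF (toGal s) pl hpl (t := t⁻¹) (by
      intro h
      rw [inv_eq_zero] at h
      apply hxK 0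
      rw [hx, h, map_zero, map_zero]) (fun v => by
      rw [map_inv₀]
      exact hinf v)
    exact ⟨O, hO1, fun O' hO' => hO2 O' hO'⟩

end forward

section converse

open Pool.Agent.TH954

variable {k F : Type} [Field k] [Field F] [Algebra k F]

/-- the place of `F` with values in `k` -/
lemma exists_place (O : ValuationSubring F) (h1 : ∀ c : k, algebraMap k F c ∈ O)
    (h2 : ∀ a ∈ O, ∃ c : k, O.valuation (a - algebraMap k F c) < 1) : Nonempty (Plc k F k) := by
  let i : k →+* O := (algebraMap k F).codRestrict O h1
  let φ : k →+* IsLocalRing.ResidueField O := (IsLocalRing.residue O).comp i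
  have hsurj : Function.Surjective φ := by
    intro r
    obtain ⟨a, rfl⟩ := IsLocalRing.residue_surjective r
    obtain ⟨c, hc⟩ := h2 a a.2
    refine ⟨c, ?_⟩
    have h3 : a - i c ∈ IsLocalRing.maximalIdeal O :=
      (ValuationSubring.valuation_lt_one_iff O (a - i c)).2 hc
    have h4 := (IsLocalRing.residue_eq_zero_iff _).2 h3
    rw [map_sub, sub_eq_zero] at h4
    exact h4.symm
  let e : k ≃+* IsLocalRing.ResidueField O := RingEquiv.ofBijective φ ⟨φ.injective, hsurj⟩
  refine ⟨{ W := O, ρ := (e.symm : IsLocalRing.ResidueField O →+* k).comp (IsLocalRing.residue O),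
            loc := fun a ha => ?_, comm := fun c => ⟨h1 c, ?_⟩ }⟩
  · have h3 : IsLocalRing.residue O a ≠ 0 := by
      intro h
      apply ha
      rw [RingHom.comp_apply, h, map_zero]
    rw [Ne, IsLocalRing.residue_eq_zero_iff, IsLocalRing.notMem_maximalIdeal] at h3
    obtain ⟨u, hu⟩ := h3
    have h4 : (a : F)⁻¹ = ((u⁻¹ : Oˣ) : O) := by
      apply inv_eq_of_mul_eq_one_right
      have h5 := congrArg (fun v : O => (v : F)) (u.mul_inv)
      rw [hu] at h5
      exact h5
    rw [h4]
    exact ((u⁻¹ : Oˣ) : O).2
  · rw [RingHom.comp_apply]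
    change e.symm (e c) = c
    exact e.symm_apply_apply c

lemma homog (f : k[X]) (X W : F) :
    aeval X f * W ^ f.natDegree = ∑ i ∈ Finset.range (f.natDegree + 1),
      algebraMap k F (f.coeff i) * ((X * W) ^ i * W ^ (f.natDegree - i)) := by
  rw [aeval_eq_sum_range, Finset.sum_mul]
  refine Finset.sum_congr rfl fun i hi => ?_
  have h : W ^ f.natDegree = W ^ i * W ^ (f.natDegree - i) := by
    rw [← pow_add]
    congr 1
    have := Finset.mem_range.1 hi
    omega
  rw [h, Algebra.smul_def, mul_pow]
  ring

/-- the easy direction, for a place -/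
theorem point_of_place (pl : Plc k F k) (f : k[X]) (hodd : Odd f.natDegree) {γ b c : k}
    (hc : c ≠ 0) {z y : F}
    (h : y ^ 2 = algebraMap k F γ * aeval (algebraMap k F b + algebraMap k F c * z ^ 2) f) :
    HasRationalPoint f γ b c := by
  have halg : ∀ a : k, pl.val (algebraMap k F a) a := fun a => Plc.val_alg (pl := pl) a
  by_cases hz : z ∈ pl.W
  · left
    obtain ⟨z0, hz0⟩ := Plc.val_of_mem hz
    have h1 : pl.val (algebraMap k F γ * aeval (algebraMap k F b + algebraMap k F c * z ^ 2) f)
        (γ * aeval (b + c * z0 ^ 2) f) :=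
      (halg γ).mul (Plc.val_aeval ((halg b).add ((halg c).mul (hz0.pow 2))) f)
    rw [← h] at h1
    obtain ⟨y0, hy0⟩ := Plc.val_of_mem (Plc.mem_of_pow_mem two_pos h1.mem)
    refine ⟨z0, y0, ?_⟩
    rw [← coe_aeval_eq_eval]
    exact (hy0.pow 2).unique h1
  · right
    have hz0 : z ≠ 0 := by
      rintro rfl
      exact hz (zero_mem _)
    have hw : pl.val z⁻¹ 0 := Plc.val_inv_of_notMem hz
    obtain ⟨m, hm⟩ := hodd
    set d := f.natDegree with hd
    have h1 : (y * z⁻¹ ^ d) ^ 2 = algebraMap k F γ * ∑ i ∈ Finset.range (d + 1),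
        algebraMap k F (f.coeff i) *
          ((algebraMap k F b * z⁻¹ ^ 2 + algebraMap k F c) ^ i * (z⁻¹ ^ 2) ^ (d - i)) := by
      have h2 := homog f (algebraMap k F b + algebraMap k F c * z ^ 2) (z⁻¹ ^ 2)
      have h3 : (algebraMap k F b + algebraMap k F c * z ^ 2) * z⁻¹ ^ 2 =
          algebraMap k F b * z⁻¹ ^ 2 + algebraMap k F c := by
        field_simp
      rw [h3] at h2
      rw [← hd] at h2
      rw [← h2, mul_pow, h]
      ring
    have h2 : pl.val ((y * z⁻¹ ^ d) ^ 2) (γ * ∑ i ∈ Finset.range (d + 1),
        f.coeff i * ((b * 0 ^ 2 + c) ^ i * (0 ^ 2) ^ (d - i))) := by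
      rw [h1]
      refine (halg γ).mul (Plc.val_sum _ fun i _ => (halg _).mul ?_)
      exact ((((halg b).mul (hw.pow 2)).add (halg c)).pow i).mul ((hw.pow 2).pow (d - i))
    have h3 : ∑ i ∈ Finset.range (d + 1),
        f.coeff i * ((b * 0 ^ 2 + c) ^ i * ((0 : k) ^ 2) ^ (d - i)) = f.leadingCoeff * c ^ d := by
      rw [Finset.sum_eq_single d]
      · rw [Nat.sub_self, pow_zero, mul_one, zero_pow two_ne_zero, mul_zero, zero_add]
        rfl
      · intro i hi hne
        have : d - i ≠ 0 := by
          have := Finset.mem_range.1 hi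
          omega
        simp [this]
      · intro h
        exact absurd (Finset.mem_range.2 (Nat.lt_succ_self d)) h
    rw [h3] at h2
    obtain ⟨u, hu⟩ := Plc.val_of_mem (Plc.mem_of_pow_mem two_pos h2.mem)
    have h4 := (hu.pow 2).unique h2
    refine ⟨u / c ^ m, ?_⟩
    rw [div_pow, h4, hm]
    field_simp
    ring

lemma isAlgebraic_of {z y : F} (htop : IntermediateField.adjoin k {z, y} = (⊤ : IntermediateField k F))
    (hy : IsIntegral (IntermediateField.adjoin k {z}) y) :
    Algebra.IsAlgebraic (IntermediateField.adjoin k {z}) F := by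
  have h1 : Algebra.IsAlgebraic (IntermediateField.adjoin k {z})
      (IntermediateField.adjoin (IntermediateField.adjoin k {z}) {y}) :=
    IntermediateField.isAlgebraic_adjoin (by
      rintro _ rfl
      exact hy)
  have h2 : IntermediateField.adjoin (IntermediateField.adjoin k {z}) {y} = ⊤ := by
    apply IntermediateField.restrictScalars_injective k
    rw [IntermediateField.adjoin_adjoin_left, IntermediateField.restrictScalars_top, ← htop]
    congr 1
  rw [h2] at h1
  refine ⟨fun x => ?_⟩
  have h3 := h1.isAlgebraic ⟨x, IntermediateField.mem_top⟩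
  exact (isAlgebraic_algebraMap_iff (A := F) (algebraMap (⊤ : IntermediateField (IntermediateField.adjoin k {z}) F) F).injective).2 h3

end converse

/-- **Theorem.** Let `k` be a number field and `f ∈ k[x]` a separable polynomial of odd degree at least
five. The birational section conjecture over `k` is equivalent to the following statement: for all
`γ, b, c ∈ k`, `γ, c ≠ 0`, if there is a section for the function field of the curve
`y ^ 2 = γ * f (b + c * z ^ 2)`, then this curve has a `k`-rational point. -/
theorem result (k : Type) [Field k] [NumberField k] (f : k[X]) (hf : f.Separable)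
    (hodd : Odd f.natDegree) (h5 : 5 ≤ f.natDegree) :
    BirationalSectionConjecture k ↔
      ∀ γ b c : k, γ ≠ 0 → c ≠ 0 → HasSection f γ b c → HasRationalPoint f γ b c := by
  constructor
  · rintro H γ b c hγ hc ⟨F, Ω, _, _, _, _, _, _, _, z, y, hz, htop, hy, ⟨s⟩⟩
    have hFG : (⊤ : IntermediateField k F).FG := by
      rw [← htop]
      exact IntermediateField.fg_def.2 ⟨{z, y}, Set.toFinite _, rfl⟩
    have hint : IsIntegral (IntermediateField.adjoin k {z}) y := by
      refine IsIntegral.of_pow two_pos ?_
      have hzm : z ∈ IntermediateField.adjoin k {z} := IntermediateField.mem_adjoin_simple_self k z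
      have h1 : y ^ 2 ∈ IntermediateField.adjoin k {z} := by
        rw [hy, aeval_eq_sum_range]
        refine mul_mem (IntermediateField.algebraMap_mem _ _) (sum_mem fun i _ => ?_)
        rw [Algebra.smul_def]
        exact mul_mem (IntermediateField.algebraMap_mem _ _) (pow_mem (add_mem
          (IntermediateField.algebraMap_mem _ _) (mul_mem (IntermediateField.algebraMap_mem _ _)
            (pow_mem hzm 2))) i)
      exact isIntegral_algebraMap (x := (⟨y ^ 2, h1⟩ : IntermediateField.adjoin k {z}))
    obtain ⟨O, ⟨-, h1, h2, -⟩, -⟩ := H F Ω hFG ⟨z, hz, isAlgebraic_of htop hint⟩ s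
    obtain ⟨pl⟩ := exists_place O h1 h2
    exact point_of_place pl f hodd hc hy
  · intro H F Ω _ _ _ _ _ _ _ _ hF s
    exact of_family f hf h5 H F Ω hF s

end Pool.Agent.Results.MP_8312c9_nt.ThreeParameterFamily
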